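import Mathlib

/-!
# MP_d362fb_lc, project DELTA: the combinatorial core

Nodes are nondecreasing sequences of labels in `D = omega_1 x omega_2`. `IsT`: length below
`omega_2`, first coordinates bounded; `IsX`: length below `omega_2`, first coordinates cofinal in
`omega_1`; `IsY`: length `omega_2`, first coordinates bounded, second coordinates cofinal.
-/

set_option autoImplicit false

namespace Pool.Agent.H77.DA

open Ordinal Cardinal

/-- labels -/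
abbrev Lb := Ordinal.{0} × Ordinal.{0}

/-- a sequence of labels of some length (constant `0` beyond the length in all uses) -/
@[ext] structure Nd where
  len : Ordinal.{0}
  f : Ordinal.{0} → Lb

/-- the labels in `D` -/
def InD (l : Lb) : Prop := l.1 < ω_ 1 ∧ l.2 < ω_ 2

/-- nondecreasing sequence of labels in `D`, zero beyond the length -/
structure Seq (s : Nd) : Prop where
  inD : ∀ ν < s.len, InD (s.f ν)
  mono : ∀ ν μ, ν ≤ μ → μ < s.len → s.f ν ≤ s.f μ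
  can : ∀ ν, s.len ≤ ν → s.f ν = 0

/-- first coordinates bounded in `omega_1` -/
def Bd (s : Nd) : Prop := ∃ a < ω_ 1, ∀ ν < s.len, (s.f ν).1 ≤ a

def IsT (s : Nd) : Prop := Seq s ∧ s.len < ω_ 2 ∧ Bd s

def IsX (s : Nd) : Prop := Seq s ∧ s.len < ω_ 2 ∧ ∀ a < ω_ 1, ∃ ν < s.len, a ≤ (s.f ν).1

def IsY (s : Nd) : Prop := Seq s ∧ s.len = ω_ 2 ∧ Bd s ∧ ∀ b < ω_ 2, ∃ ν < s.len, b ≤ (s.f ν).2

/-- initial segment -/
def Ex (s x : Nd) : Prop := s.len ≤ x.len ∧ ∀ ν < s.len, s.f ν = x.f ν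

theorem Ex.trans {a b c : Nd} (h : Ex a b) (h' : Ex b c) : Ex a c :=
  ⟨h.1.trans h'.1, fun ν hν => (h.2 ν hν).trans (h'.2 ν (lt_of_lt_of_le hν h.1))⟩

theorem Ex.refl (a : Nd) : Ex a a := ⟨le_rfl, fun _ _ => rfl⟩

/-- the two regular cardinals -/
theorem bnd {c ν : Ordinal.{0}} (hc : c = ω_ 1 ∨ c = ω_ 2) (hν : ν < c) (g : Ordinal.{0} → Ordinal.{0})
    (hg : ∀ μ < ν, g μ < c) : ∃ b < c, ∀ μ < ν, g μ ≤ b := by
  obtain ⟨κ, hκ, hcκ⟩ : ∃ κ : Cardinal.{0}, κ.IsRegular ∧ c = κ.ord := by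
    rcases hc with rfl | rfl
    · exact ⟨ℵ_ 1, isRegular_aleph_one, (ord_aleph 1).symm⟩
    · refine ⟨ℵ_ 2, ?_, (ord_aleph 2).symm⟩
      have := isRegular_aleph_add_one 1
      rwa [one_add_one_eq_two] at this
  subst hcκ
  refine ⟨Ordinal.bsup ν (fun μ _ => g μ), ?_, fun μ hμ => Ordinal.le_bsup (fun μ _ => g μ) μ hμ⟩
  exact bsup_lt_ord_of_isRegular hκ (lt_ord.mp hν) (fun μ hμ => hg μ hμ)

theorem w1w2 : (ω_ 1 : Ordinal.{0}) < ω_ 2 := omega_lt_omega.mpr one_lt_two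

theorem lim1 {a : Ordinal.{0}} (h : a < ω_ 1) : a + 1 < ω_ 1 :=
  (isSuccLimit_omega 1).add_one_lt h

theorem lim2 {a : Ordinal.{0}} (h : a < ω_ 2) : a + 1 < ω_ 2 :=
  (isSuccLimit_omega 2).add_one_lt h

/-- property (1) -/
def One (dX : Nd → Lb) (t : Nd) (a : Ordinal.{0}) : Prop :=
  ∀ g, InD g → ∃ ξ, IsX ξ ∧ Ex t ξ ∧ t.len < ξ.len ∧ g ≤ ξ.f t.len ∧ (dX ξ).1 ≤ a

/-- property (2) -/
def Two (dY : Nd → Lb) (t : Nd) (a : Ordinal.{0}) : Prop :=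
  ∃ j < ω_ 2, ∀ i < ω_ 2, ∃ η, IsY η ∧ Ex t η ∧ t.len < η.len ∧ (a + 1, i) ≤ η.f t.len ∧
    (dY η).2 ≤ j

/-- the conclusion -/
def Good (dX dY : Nd → Lb) : Prop :=
  ∃ ξ η τ, IsX ξ ∧ IsY η ∧ τ < ξ.len ∧ τ < η.len ∧ (∀ ν < τ, ξ.f ν = η.f ν) ∧
    ξ.f τ ≠ η.f τ ∧ dY η ≤ ξ.f τ ∧ dX ξ ≤ η.f τ

theorem step0 {dX dY : Nd → Lb} (hX : ∀ x, IsX x → InD (dX x)) (hY : ∀ y, IsY y → InD (dY y))
    {t : Nd} {a : Ordinal.{0}} (h1 : One dX t a) (h2 : Two dY t a) : Good dX dY := by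
  obtain ⟨j, hj, h2⟩ := h2
  have h1' : ∀ g : Ordinal.{0}, ∃ ξ, g < ω_ 1 → IsX ξ ∧ Ex t ξ ∧ t.len < ξ.len ∧
      ((g, j) : Lb) ≤ ξ.f t.len ∧ (dX ξ).1 ≤ a := by
    intro g
    by_cases hg : g < ω_ 1
    · obtain ⟨ξ, h⟩ := h1 (g, j) ⟨hg, hj⟩
      exact ⟨ξ, fun _ => h⟩
    · exact ⟨t, fun h => absurd h hg⟩
  choose ξ hξ using h1'
  obtain ⟨i, hi, hib⟩ := bnd (Or.inr rfl) w1w2 (fun g => (dX (ξ g)).2)
    (fun g hg => (hX _ (hξ g hg).1).2)
  obtain ⟨η, hη, hη1, hη2, hη3, hη4⟩ := h2 i hi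
  have hd := hY η hη
  have hη0 : InD (η.f t.len) := hη.1.inD _ hη2
  set g : Ordinal.{0} := max (dY η).1 ((η.f t.len).1 + 1) with hgdef
  have hg : g < ω_ 1 := max_lt hd.1 (lim1 hη0.1)
  obtain ⟨x1, x2, x3, x4, x5⟩ := hξ g hg
  refine ⟨ξ g, η, t.len, x1, hη, x3, hη2, ?_, ?_, ?_, ?_⟩
  · intro ν hν
    rw [← x2.2 ν hν, ← hη1.2 ν hν]
  · intro he
    have h := x4.1
    rw [he] at h
    have h' : (η.f t.len).1 + 1 ≤ (η.f t.len).1 := le_trans (le_max_right _ _) h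
    exact absurd (lt_add_one (η.f t.len).1) (not_lt.mpr h')
  · exact ⟨le_trans (le_max_left _ _) x4.1, le_trans hη4 x4.2⟩
  · refine ⟨le_trans x5 (le_trans ?_ hη3.1), le_trans (hib g hg) hη3.2⟩
    exact le_of_lt (lt_add_one a)

/-! ## transfinite recursion -/

/-- restriction of a transfinite sequence -/
noncomputable def cut {A : Type*} (z : A) (ν : Ordinal.{0}) (s : Ordinal.{0} → A) :
    Ordinal.{0} → A := fun μ => open Classical in if μ < ν then s μ else z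

theorem cut_lt {A : Type*} (z : A) {ν μ : Ordinal.{0}} (s : Ordinal.{0} → A) (h : μ < ν) :
    cut z ν s μ = s μ := by
  unfold cut
  rw [if_pos h]

/-- transfinite sequences with a step relation that only uses the earlier terms -/
theorem exists_rec {A : Type*} (z : A) (R : Ordinal.{0} → (Ordinal.{0} → A) → A → Prop) :
    ∃ s : Ordinal.{0} → A, ∀ ν, (∃ a, R ν (cut z ν s) a) → R ν (cut z ν s) (s ν) := by
  classical
  let F : (ν : Ordinal.{0}) → ((μ : Ordinal.{0}) → μ < ν → A) → A := fun ν p =>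
    if h : ∃ a, R ν (fun μ => if h' : μ < ν then p μ h' else z) a then h.choose else z
  let s : Ordinal.{0} → A := WellFounded.fix Ordinal.lt_wf F
  refine ⟨s, fun ν h => ?_⟩
  have e : s ν = F ν (fun μ _ => s μ) := WellFounded.fix_eq Ordinal.lt_wf F ν
  have e2 : (fun μ => if h' : μ < ν then (fun (μ : Ordinal.{0}) (_ : μ < ν) => s μ) μ h' else z) =
      cut z ν s := by
    funext μ
    unfold cut
    by_cases h' : μ < ν
    · rw [dif_pos h', if_pos h']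
    · rw [dif_neg h', if_neg h']
  have e3 : s ν = if h : ∃ a, R ν (cut z ν s) a then h.choose else z := by
    rw [e]
    show (if h : ∃ a, R ν (fun μ => if h' : μ < ν then
      (fun (μ : Ordinal.{0}) (_ : μ < ν) => s μ) μ h' else z) a then h.choose else z) = _
    rw [e2]
  rw [e3, dif_pos h]
  exact h.choose_spec

/-- union of an initial part of a sequence of nodes -/
noncomputable def un (ν : Ordinal.{0}) (t : Ordinal.{0} → Nd) : Nd where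
  len := Ordinal.bsup ν (fun μ _ => (t μ).len)
  f κ := open Classical in if h : ∃ μ < ν, κ < (t μ).len then (t h.choose).f κ else 0

theorem lt_un {ν κ : Ordinal.{0}} {t : Ordinal.{0} → Nd} :
    κ < (un ν t).len ↔ ∃ μ < ν, κ < (t μ).len := by
  unfold un
  rw [Ordinal.lt_bsup]
  constructor
  · rintro ⟨μ, h, h'⟩
    exact ⟨μ, h, h'⟩
  · rintro ⟨μ, h, h'⟩
    exact ⟨μ, h, h'⟩

theorem un_ex {ν : Ordinal.{0}} {t : Ordinal.{0} → Nd}
    (h : ∀ μ' < ν, ∀ μ < μ', Ex (t μ) (t μ')) {μ : Ordinal.{0}} (hμ : μ < ν) :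
    Ex (t μ) (un ν t) := by
  refine ⟨Ordinal.le_bsup (fun μ _ => (t μ).len) μ hμ, fun κ hκ => ?_⟩
  have he : ∃ μ < ν, κ < (t μ).len := ⟨μ, hμ, hκ⟩
  have h1 : (un ν t).f κ = (t he.choose).f κ := by
    unfold un
    exact dif_pos he
  rw [h1]
  obtain ⟨h2, h3⟩ := he.choose_spec
  rcases lt_trichotomy μ he.choose with h4 | h4 | h4
  · exact (h _ h2 _ h4).2 κ hκ
  · rw [← h4]
  · exact ((h _ hμ _ h4).2 κ h3).symm

theorem un_seq {ν : Ordinal.{0}} {t : Ordinal.{0} → Nd} (ht : ∀ μ < ν, Seq (t μ))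
    (h : ∀ μ' < ν, ∀ μ < μ', Ex (t μ) (t μ')) : Seq (un ν t) := by
  refine ⟨?_, ?_, ?_⟩
  · intro κ hκ
    obtain ⟨μ, h1, h2⟩ := lt_un.mp hκ
    rw [← (un_ex h h1).2 κ h2]
    exact (ht μ h1).inD κ h2
  · intro κ κ' hk hκ'
    obtain ⟨μ, h1, h2⟩ := lt_un.mp hκ'
    rw [← (un_ex h h1).2 κ' h2, ← (un_ex h h1).2 κ (lt_of_le_of_lt hk h2)]
    exact (ht μ h1).mono κ κ' hk h2
  · intro κ hκ
    have hn : ¬ ∃ μ < ν, κ < (t μ).len := by
      rw [← lt_un]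
      exact not_lt.mpr hκ
    unfold un
    exact dif_neg hn

theorem un_T {ν : Ordinal.{0}} (hν : ν < ω_ 1) {t : Ordinal.{0} → Nd} (ht : ∀ μ < ν, IsT (t μ))
    (h : ∀ μ' < ν, ∀ μ < μ', Ex (t μ) (t μ')) : IsT (un ν t) := by
  refine ⟨un_seq (fun μ hμ => (ht μ hμ).1) h, ?_, ?_⟩
  · obtain ⟨b, hb, hb'⟩ := bnd (Or.inr rfl) (hν.trans w1w2) (fun μ => (t μ).len)
      (fun μ hμ => (ht μ hμ).2.1)
    refine lt_of_le_of_lt ?_ hb
    by_contra hc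
    obtain ⟨μ, h1, h2⟩ := lt_un.mp (not_le.mp hc)
    exact absurd h2 (not_lt.mpr (hb' μ h1))
  · have hex : ∀ μ, ∃ a, μ < ν → a < ω_ 1 ∧ ∀ κ < (t μ).len, ((t μ).f κ).1 ≤ a := by
      intro μ
      by_cases hμ : μ < ν
      · obtain ⟨a, ha⟩ := (ht μ hμ).2.2
        exact ⟨a, fun _ => ha⟩
      · exact ⟨0, fun h => absurd h hμ⟩
    choose a ha using hex
    obtain ⟨b, hb, hb'⟩ := bnd (Or.inl rfl) hν a (fun μ hμ => (ha μ hμ).1)
    refine ⟨b, hb, fun κ hκ => ?_⟩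
    obtain ⟨μ, h1, h2⟩ := lt_un.mp hκ
    rw [← (un_ex h h1).2 κ h2]
    exact le_trans ((ha μ h1).2 κ h2) (hb' μ h1)

end Pool.Agent.H77.DA
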