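import Pool.Agent.H77.DA.Core

/-!
# MP_d362fb_lc, project DELTA: the combinatorial core, main theorem
-/

set_option autoImplicit false

namespace Pool.Agent.H77.DA

open Ordinal Cardinal

/-- step relation in the construction of `xi` -/
def RA (dX : Nd → Lb) (wit : Nd → Ordinal.{0} → Lb) (ν : Ordinal.{0}) (t : Ordinal.{0} → Nd)
    (x : Nd) : Prop :=
  IsT x ∧ Ex (un ν t) x ∧ (un ν t).len < x.len ∧ ν ≤ (x.f (un ν t).len).1 ∧
    (∀ μ < ν, wit (t μ) μ ≤ x.f (un ν t).len) ∧ ¬ One dX x ν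

theorem stepA {dX : Nd → Lb} (hX : ∀ x, IsX x → InD (dX x)) :
    ∃ t b g, IsT t ∧ b < ω_ 1 ∧ InD g ∧ ∀ t', IsT t' → Ex t t' → t.len < t'.len →
      g ≤ t'.f t.len → One dX t' b := by
  by_contra hcon
  have HA : ∀ t, IsT t → ∀ b < ω_ 1, ∀ g, InD g → ∃ t', IsT t' ∧ Ex t t' ∧ t.len < t'.len ∧
      g ≤ t'.f t.len ∧ ¬ One dX t' b := by
    intro t ht b hb g hg
    by_contra h
    refine hcon ⟨t, b, g, ht, hb, hg, fun t' h1 h2 h3 h4 => ?_⟩
    by_contra h5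
    exact h ⟨t', h1, h2, h3, h4, h5⟩
  have hwit : ∀ (x : Nd) (b : Ordinal.{0}), ∃ g : Lb, InD g ∧ (¬ One dX x b →
      ∀ ξ, IsX ξ → Ex x ξ → x.len < ξ.len → g ≤ ξ.f x.len → b < (dX ξ).1) := by
    intro x b
    by_cases h : One dX x b
    · exact ⟨0, ⟨omega_pos 1, omega_pos 2⟩, fun h' => absurd h h'⟩
    · have h' := h
      unfold One at h'
      rw [not_forall] at h'
      obtain ⟨g, hg⟩ := h'
      rw [Classical.not_imp] at hg
      refine ⟨g, hg.1, fun _ ξ h1 h2 h3 h4 => ?_⟩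
      by_contra h5
      exact hg.2 ⟨ξ, h1, h2, h3, h4, not_lt.mp h5⟩
  choose wit hw1 hw2 using hwit
  obtain ⟨s, hs⟩ := exists_rec (⟨0, fun _ => 0⟩ : Nd) (RA dX wit)
  have main : ∀ ν < ω_ 1, (∀ μ < ν, Ex (s μ) (s ν)) ∧
      RA dX wit ν (cut ⟨0, fun _ => 0⟩ ν s) (s ν) := by
    intro ν
    induction ν using Ordinal.induction with
    | h ν ih =>
      intro hν
      have c1 : ∀ μ' < ν, ∀ μ < μ',
          Ex (cut ⟨0, fun _ => 0⟩ ν s μ) (cut ⟨0, fun _ => 0⟩ ν s μ') := by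
        intro μ' h' μ hμ
        rw [cut_lt _ s h', cut_lt _ s (hμ.trans h')]
        exact (ih μ' h' (h'.trans hν)).1 μ hμ
      have c2 : ∀ μ < ν, IsT (cut ⟨0, fun _ => 0⟩ ν s μ) := by
        intro μ hμ
        rw [cut_lt _ s hμ]
        exact (ih μ hμ (hμ.trans hν)).2.1
      have c3 : IsT (un ν (cut ⟨0, fun _ => 0⟩ ν s)) := un_T hν c2 c1
      have hR : RA dX wit ν (cut ⟨0, fun _ => 0⟩ ν s) (s ν) := by
        refine hs ν ?_
        obtain ⟨b1, h1, h1'⟩ := bnd (Or.inl rfl) hν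
          (fun μ => (wit (cut ⟨0, fun _ => 0⟩ ν s μ) μ).1) (fun μ _ => (hw1 _ _).1)
        obtain ⟨b2, h2, h2'⟩ := bnd (Or.inr rfl) (hν.trans w1w2)
          (fun μ => (wit (cut ⟨0, fun _ => 0⟩ ν s μ) μ).2) (fun μ _ => (hw1 _ _).2)
        obtain ⟨x, x1, x2, x3, x4, x5⟩ := HA _ c3 ν hν (max ν b1, b2) ⟨max_lt hν h1, h2⟩
        exact ⟨x, x1, x2, x3, le_trans (le_max_left _ _) x4.1,
          fun μ hμ => ⟨le_trans (h1' μ hμ) (le_trans (le_max_right _ _) x4.1),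
            le_trans (h2' μ hμ) x4.2⟩, x5⟩
      refine ⟨fun μ hμ => ?_, hR⟩
      have := un_ex c1 hμ
      rw [cut_lt _ s hμ] at this
      exact this.trans hR.2.1
  have ch : ∀ μ' < ω_ 1, ∀ μ < μ', Ex (s μ) (s μ') := fun μ' h' μ hμ => (main μ' h').1 μ hμ
  set ξ : Nd := un (ω_ 1) s with hξ
  have hξX : IsX ξ := by
    refine ⟨un_seq (fun μ hμ => (main μ hμ).2.1.1) ch, ?_, ?_⟩
    · obtain ⟨b, hb, hb'⟩ := bnd (Or.inr rfl) w1w2 (fun μ => (s μ).len)
        (fun μ hμ => (main μ hμ).2.1.2.1)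
      refine lt_of_le_of_lt ?_ hb
      by_contra hc
      obtain ⟨μ, h1, h2⟩ := lt_un.mp (not_le.mp hc)
      exact absurd h2 (not_lt.mpr (hb' μ h1))
    · intro a ha
      obtain ⟨-, -, -, h3, h4, -⟩ := main a ha
      refine ⟨_, lt_of_lt_of_le h3 (un_ex ch ha).1, ?_⟩
      rw [← (un_ex ch ha).2 _ h3]
      exact h4
  have hlast : ∀ ν < ω_ 1, ν < (dX ξ).1 := by
    intro ν hν
    have hν1 := lim1 hν
    obtain ⟨y1, y2⟩ := main ν hν
    obtain ⟨z1, z2, z3, z4, z5, z6⟩ := main (ν + 1) hν1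
    have hlen : (un (ν + 1) (cut ⟨0, fun _ => 0⟩ (ν + 1) s)).len = (s ν).len := by
      apply le_antisymm
      · by_contra hc
        obtain ⟨μ, h1, h2⟩ := lt_un.mp (not_le.mp hc)
        rw [cut_lt _ s h1] at h2
        rcases lt_or_eq_of_le (Order.lt_add_one_iff.mp h1) with h3 | h3
        · exact absurd h2 (not_lt.mpr (y1 μ h3).1)
        · rw [h3] at h2
          exact lt_irrefl _ h2
      · by_contra hc
        have h1 : (s ν).len ≤ (un (ν + 1) (cut ⟨0, fun _ => 0⟩ (ν + 1) s)).len := by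
          by_contra h2
          exact h2 (by
            have := Ordinal.le_bsup
              (fun (μ : Ordinal.{0}) (_ : μ < ν + 1) => (cut ⟨0, fun _ => 0⟩ (ν + 1) s μ).len)
              ν (lt_add_one ν)
            rw [cut_lt _ s (lt_add_one ν)] at this
            exact this)
        exact hc h1
    rw [hlen] at z4 z6
    have e1 : Ex (s ν) ξ := un_ex ch hν
    have e2 : (s ν).len < ξ.len := lt_of_lt_of_le z4 (un_ex ch hν1).1
    refine hw2 (s ν) ν y2.2.2.2.2.2 ξ hξX e1 e2 ?_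
    rw [← (un_ex ch hν1).2 _ z4]
    have h7 := main (ν + 1) hν1
    have h8 := h7.2.2.2.2.2.1 ν (lt_add_one ν)
    rw [hlen, cut_lt _ s (lt_add_one ν)] at h8
    exact h8
  exact absurd (hlast _ (hX ξ hξX).1) (lt_irrefl _)

/-- initial part of a sequence of labels as a node -/
noncomputable def nd (ν : Ordinal.{0}) (p : Ordinal.{0} → Lb) : Nd where
  len := ν
  f κ := open Classical in if κ < ν then p κ else 0

theorem nd_lt {ν κ : Ordinal.{0}} {p : Ordinal.{0} → Lb} (h : κ < ν) : (nd ν p).f κ = p κ := by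
  unfold nd
  exact if_pos h

theorem nd_cut (ν : Ordinal.{0}) (z : Lb) (p : Ordinal.{0} → Lb) : nd ν (cut z ν p) = nd ν p := by
  unfold nd
  congr 1
  funext κ
  by_cases h : κ < ν
  · rw [if_pos h, if_pos h, cut_lt z p h]
  · rw [if_neg h, if_neg h]

/-- step relation in the construction of `eta` -/
def RB (t : Nd) (A : Ordinal.{0}) (g : Lb) (io : Nd → Ordinal.{0} → Ordinal.{0})
    (ν : Ordinal.{0}) (p : Ordinal.{0} → Lb) (l : Lb) : Prop :=
  (ν < t.len → l = t.f ν) ∧ (t.len ≤ ν → l.1 = A ∧ InD l ∧ (∀ μ < ν, p μ ≤ l) ∧ ν ≤ l.2 ∧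
    g ≤ l ∧ io (nd ν p) ν ≤ l.2)

theorem stepB {dY : Nd → Lb} (hY : ∀ y, IsY y → InD (dY y)) {t : Nd}
    {b : Ordinal.{0}} {g : Lb} (ht : IsT t) (hb : b < ω_ 1) (hg : InD g)
    (h : ∀ t', IsT t' → Ex t t' → t.len < t'.len → g ≤ t'.f t.len → ¬ Two dY t' b) : False := by
  have hio : ∀ (x : Nd) (j : Ordinal.{0}), ∃ i : Ordinal.{0}, i < ω_ 2 ∧ (¬ Two dY x b → j < ω_ 2 →
      ∀ η, IsY η → Ex x η → x.len < η.len → (b + 1, i) ≤ η.f x.len → j < (dY η).2) := by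
    intro x j
    by_cases h1 : ¬ Two dY x b ∧ j < ω_ 2
    · obtain ⟨h2, h3⟩ := h1
      unfold Two at h2
      rw [not_exists] at h2
      have h4 := h2 j
      rw [not_and, not_forall] at h4
      obtain ⟨i, hi⟩ := h4 h3
      rw [Classical.not_imp] at hi
      refine ⟨i, hi.1, fun _ _ η e1 e2 e3 e4 => ?_⟩
      by_contra h5
      exact hi.2 ⟨η, e1, e2, e3, e4, not_lt.mp h5⟩
    · exact ⟨0, omega_pos 2, fun e1 e2 => absurd ⟨e1, e2⟩ h1⟩
  choose io hio1 hio2 using hio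
  obtain ⟨a, ha, ha'⟩ := ht.2.2
  set A : Ordinal.{0} := max a (max (b + 1) g.1) with hAdef
  have hA : A < ω_ 1 := max_lt ha (max_lt (lim1 hb) hg.1)
  have hAa : a ≤ A := le_max_left _ _
  have hAb : b + 1 ≤ A := le_trans (le_max_left _ _) (le_max_right _ _)
  have hAg : g.1 ≤ A := le_trans (le_max_right _ _) (le_max_right _ _)
  obtain ⟨p, hp⟩ := exists_rec (0 : Lb) (RB t A g io)
  have main : ∀ ν < ω_ 2, RB t A g io ν (cut 0 ν p) (p ν) := by
    intro ν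
    induction ν using Ordinal.induction with
    | h ν ih =>
      intro hν
      refine hp ν ?_
      by_cases h1 : ν < t.len
      · exact ⟨t.f ν, fun _ => rfl, fun h2 => absurd h1 (not_lt.mpr h2)⟩
      · have hd : ∀ μ < ν, (p μ).1 ≤ A ∧ InD (p μ) := by
          intro μ hμ
          have h2 := ih μ hμ (hμ.trans hν)
          by_cases h3 : μ < t.len
          · rw [h2.1 h3]
            exact ⟨le_trans (ha' μ h3) hAa, ht.1.inD μ h3⟩
          · obtain ⟨h4, h5, -⟩ := h2.2 (not_lt.mp h3)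
            exact ⟨le_of_eq h4, h5⟩
        obtain ⟨c, hc, hc'⟩ := bnd (Or.inr rfl) hν (fun μ => (p μ).2) (fun μ hμ => (hd μ hμ).2.2)
        set B : Ordinal.{0} := max c (max ν (max g.2 (io (nd ν (cut 0 ν p)) ν))) with hB
        have hB2 : B < ω_ 2 := max_lt hc (max_lt hν (max_lt hg.2 (hio1 _ _)))
        refine ⟨(A, B), fun h2 => absurd h2 h1, fun _ => ⟨rfl, ⟨hA, hB2⟩, ?_, ?_, ?_, ?_⟩⟩
        · intro μ hμ
          rw [cut_lt _ p hμ]
          exact ⟨(hd μ hμ).1, le_trans (hc' μ hμ) (le_max_left _ _)⟩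
        · exact le_trans (le_max_left _ _) (le_max_right _ _)
        · exact ⟨hAg, le_trans (le_trans (le_max_left _ _) (le_max_right _ _))
            (le_max_right _ _)⟩
        · exact le_trans (le_trans (le_max_right _ _) (le_max_right _ _)) (le_max_right _ _)
  have hpA : ∀ ν < ω_ 2, (p ν).1 ≤ A ∧ InD (p ν) := by
    intro μ hμ
    have h2 := main μ hμ
    by_cases h3 : μ < t.len
    · rw [h2.1 h3]
      exact ⟨le_trans (ha' μ h3) hAa, ht.1.inD μ h3⟩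
    · obtain ⟨h4, h5, -⟩ := h2.2 (not_lt.mp h3)
      exact ⟨le_of_eq h4, h5⟩
  have hmono : ∀ ν μ, ν ≤ μ → μ < ω_ 2 → p ν ≤ p μ := by
    intro ν μ hνμ hμ
    rcases lt_or_eq_of_le hνμ with h1 | h1
    · have h2 := main μ hμ
      by_cases h3 : μ < t.len
      · rw [h2.1 h3, (main ν (h1.trans hμ)).1 (h1.trans h3)]
        exact ht.1.mono ν μ hνμ h3
      · have h4 := (h2.2 (not_lt.mp h3)).2.2.1 ν h1
        rw [cut_lt _ p h1] at h4
        exact h4
    · rw [h1]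
  have hseq : ∀ ν ≤ ω_ 2, Seq (nd ν p) := by
    intro ν hν
    refine ⟨?_, ?_, ?_⟩
    · intro κ hκ0
      have hκ : κ < ν := hκ0
      rw [nd_lt hκ]
      exact (hpA κ (lt_of_lt_of_le hκ hν)).2
    · intro κ κ' hk hκ0
      have hκ' : κ' < ν := hκ0
      rw [nd_lt hκ', nd_lt (lt_of_le_of_lt hk hκ')]
      exact hmono κ κ' hk (lt_of_lt_of_le hκ' hν)
    · intro κ hκ
      unfold nd
      exact if_neg (not_lt.mpr hκ)
  have hbd : ∀ ν ≤ ω_ 2, Bd (nd ν p) := by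
    intro ν hν
    refine ⟨A, hA, fun κ hκ0 => ?_⟩
    have hκ : κ < ν := hκ0
    rw [nd_lt hκ]
    exact (hpA κ (lt_of_lt_of_le hκ hν)).1
  set η : Nd := nd (ω_ 2) p with hη
  have hηY : IsY η := by
    refine ⟨hseq _ le_rfl, rfl, hbd _ le_rfl, fun c hc => ?_⟩
    set ν : Ordinal.{0} := max c t.len with hνdef
    have hν : ν < ω_ 2 := max_lt hc ht.2.1
    refine ⟨ν, hν, ?_⟩
    rw [hη, nd_lt hν]
    exact le_trans (le_max_left _ _) ((main ν hν).2 (le_max_right _ _)).2.2.2.1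
  have hlast : ∀ ν < ω_ 2, t.len < ν → ν < (dY η).2 := by
    intro ν hν htν
    have hT : IsT (nd ν p) := ⟨hseq ν hν.le, hν, hbd ν hν.le⟩
    have hex : Ex t (nd ν p) := by
      refine ⟨htν.le, fun κ hκ => ?_⟩
      rw [nd_lt (hκ.trans htν)]
      exact ((main κ ((hκ.trans htν).trans hν)).1 hκ).symm
    have h1 : ¬ Two dY (nd ν p) b := by
      refine h _ hT hex htν ?_
      rw [nd_lt htν]
      exact ((main t.len ht.2.1).2 le_rfl).2.2.2.2.1
    refine hio2 (nd ν p) ν h1 hν η hηY ⟨hν.le, fun κ hκ0 => ?_⟩ hν ?_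
    · have hκ : κ < ν := hκ0
      rw [hη, nd_lt hκ]
      exact (nd_lt (hκ.trans hν)).symm
    · show (b + 1, io (nd ν p) ν) ≤ η.f ν
      rw [hη, nd_lt hν]
      obtain ⟨h2, -, -, -, -, h3⟩ := (main ν hν).2 htν.le
      rw [nd_cut] at h3
      refine ⟨?_, h3⟩
      rw [h2]
      exact hAb
  set ν : Ordinal.{0} := max (t.len + 1) (dY η).2 with hνdef
  have hν : ν < ω_ 2 := max_lt (lim2 ht.2.1) (hY η hηY).2
  have hlt : t.len < ν := lt_of_lt_of_le (lt_add_one _) (le_max_left _ _)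
  exact absurd (hlast ν hν hlt) (not_lt.mpr (le_max_right _ _))

/-- the combinatorial core: for all assignments of labels to the nodes of the two kinds there are
two incomparable nodes, each of which takes at the meet a label above the label of the other -/
theorem core (dX dY : Nd → Lb) (hX : ∀ x, IsX x → InD (dX x)) (hY : ∀ y, IsY y → InD (dY y)) :
    ∃ ξ η τ, IsX ξ ∧ IsY η ∧ τ < ξ.len ∧ τ < η.len ∧ (∀ ν < τ, ξ.f ν = η.f ν) ∧
      ξ.f τ ≠ η.f τ ∧ dY η ≤ ξ.f τ ∧ dX ξ ≤ η.f τ := by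
  obtain ⟨t, b, g, ht, hb, hg, h⟩ := stepA hX
  by_contra hcon
  refine stepB hY ht hb hg (fun t' h1 h2 h3 h4 h5 => ?_)
  exact hcon (step0 hX hY (h t' h1 h2 h3 h4) h5)

end Pool.Agent.H77.DA
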